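import Pool.Agent.J6H10.MU.PR
import Mathlib.Combinatorics.HalesJewett

/-!
# Prime values of `a p + (a - 1) / 3` at primes `p`: free choice of the multipliers

The number `4 p + 1` is the case `a = 4` of `a (p + 1/3) - 1/3 = a p + (a - 1) / 3`, `a ≡ 1 (mod 3)`. The maps
`y ↦ a (y + u/v) - u/v` (`a ≡ 1 (mod v)`) form a semigroup isomorphic to the multiplicative semigroup of the
multipliers `a`. We show that in every such semigroup of affine maps all the partition regular configurations occur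
as multipliers of primes to primes, in infinite systems with free choices:

Let `𝓒_0, 𝓒_1, …` be families of nonempty finite sets of multipliers which are invariant under multiplication and
partition regular: for every finite colouring of the multipliers some member of `𝓒_i` is monochromatic. Examples are
the arithmetic progressions of a given length, or the dilates `b E` of the powers `E = {d^e : e ≤ h}`, and the sets of
the values of the variables in the solutions of any homogeneous partition regular system of linear equations. There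
are members `S_i ∈ 𝓒_i` such that for ALL choices `x_i ∈ S_i` and all nonempty finite sets `F_0 < F_1 < … < F_{k-1}`
of indices, with `a_m` the product of the `x_i` over `i ∈ F_0 ∪ ⋯ ∪ F_{m-1}`, there are infinitely many primes `n` for
which all the numbers `a_m (n + u/v) - u/v`, `m ≤ k`, are primes; the prime `n` may be taken in any given residue class
to a modulus coprime to the multipliers, and no other linear form from a given finite set has a prime value at `n`.

Special cases are stated at the end: multipliers of primes `p` for the question (`u = 1`, `v = 3`) from arithmetic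
progressions of prescribed lengths, and the times `t` for which the `t`-th iterate of `p ↦ 4 p + 1` is prime.

Method: an infinite dimensional Ramsey theorem for closed families of sequences with a minimal idempotent ultrafilter
(`Pool.Agent.J6H10.PR.closed_sets`), and the infinite exact pattern theorem for linear forms of the starting files
(`Pool.Agent.H361R2.Inf.exact_infinite`, Maynard-Tao).
-/

set_option autoImplicit false

namespace Pool.Agent.Results.MP_3df474_nt.MultiplierSystems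

/-- the map `y ↦ a y + (a - 1) u / v`, which is `a (y + u / v) - u / v`, for `a ≡ 1 (mod v)` -/
def dil (u : ℤ) (v a : ℕ) (y : ℤ) : ℤ := a * y + ((a : ℤ) - 1) / v * u

/-- Let `G` be a commutative monoid, `φ j : G → ℕ` multiplicative with `φ j x ≥ 2` for `x ≠ 1`, `φ j x ≡ 1 (mod v j)`
and `φ j x` coprime to `u j` and to `q j`. Let `𝓒 i` be families of nonempty finite subsets of `G` which are invariant
under multiplication by the elements of `G` and partition regular: for every finite colouring of `G` the family `𝓒 i`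
has a monochromatic member without `1`. Let `r j` be prime to `q j`. There are `S i ∈ 𝓒 i` such that for all `j`, all
choices `x i ∈ S i` and all nonempty finite sets `F 0 < ⋯ < F (k - 1)` of integers `≥ j`, with `a m` the product of the
`φ j (x i)` over `i ∈ F 0 ∪ ⋯ ∪ F (m - 1)`: for every finite set `U` of linear forms there are infinitely many
`n ≡ r j (mod q j)` such that the numbers `a m * n + (a m - 1) * u j / v j`, `m ≤ k` (the first one is `n`), are primes
and no form in `U`, except possibly these `k + 1` forms, has a prime value at `n`. -/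
theorem result (G : Type) [CommMonoid G] (φ : ℕ → G →* ℕ) (hφ : ∀ j x, x ≠ 1 → 2 ≤ φ j x)
    (u : ℕ → ℤ) (v q : ℕ → ℕ) (r : ℕ → ℤ) (hv : ∀ j, 1 ≤ v j) (hφv : ∀ j x, φ j x ≡ 1 [MOD v j])
    (hcop : ∀ j x, IsCoprime (φ j x : ℤ) (u j * q j)) (hq : ∀ j, 1 ≤ q j)
    (hr : ∀ j, IsCoprime (r j) (q j : ℤ))
    (𝓒 : ℕ → Set (Finset G)) (hne : ∀ i, ∀ S ∈ 𝓒 i, S.Nonempty)
    (htr : ∀ i, ∀ S ∈ 𝓒 i, ∀ g : G, ∃ S' ∈ 𝓒 i, (S' : Set G) = (fun s => g * s) '' S)
    (hpr : ∀ (i k : ℕ) (χ : G → Fin k), ∃ S ∈ 𝓒 i, 1 ∉ S ∧ ∀ s ∈ S, ∀ s' ∈ S, χ s = χ s') :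
    ∃ S : ℕ → Finset G, (∀ i, S i ∈ 𝓒 i) ∧ (∀ i, 1 ∉ S i) ∧
      ∀ (j k : ℕ) (F : ℕ → Finset ℕ) (x : ℕ → G), (∀ i, x i ∈ S i) →
        (∀ l < k, (F l).Nonempty) → (∀ l < k, ∀ i ∈ F l, j ≤ i) →
        (∀ l, l + 1 < k → ∀ i ∈ F l, ∀ i' ∈ F (l + 1), i < i') →
        ∀ U : Finset (ℤ × ℤ), (∀ g ∈ U, 1 ≤ g.1) →
          {n : ℕ | (n : ℤ) ≡ r j [ZMOD q j] ∧
            (∀ m ≤ k, Nat.Prime
              (dil (u j) (v j) (∏ l ∈ Finset.range m, ∏ i ∈ F l, φ j (x i)) n).toNat) ∧
            ∀ g ∈ U, Nat.Prime (g.1 * n + g.2).toNat → ∃ m ≤ k, ∀ y : ℤ,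
              g.1 * y + g.2 = dil (u j) (v j) (∏ l ∈ Finset.range m, ∏ i ∈ F l, φ j (x i)) y}.Infinite := by
  classical
  have hT : Pool.Agent.J6H10.PR.Tails (G := Additive G) (fun _ : ℕ => {x : Additive G | x ≠ 0}) := by
    refine ⟨fun _ _ _ => le_rfl, fun n => ?_, fun n x hx => ⟨0, fun y _ hxy => ?_⟩⟩
    · obtain ⟨S, hS, h0, -⟩ := hpr 0 1 (fun _ => 0)
      obtain ⟨s, hs⟩ := hne 0 S hS
      refine ⟨Additive.ofMul s, fun h => h0 ?_⟩
      rw [ofMul_eq_zero] at h
      rw [← h]
      exact hs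
    · have h2 : x.toMul * y.toMul = 1 := by
        rw [← toMul_add, hxy, toMul_zero]
      have h1 : φ 0 (x.toMul * y.toMul) = 1 := by rw [h2, map_one]
      rw [map_mul] at h1
      have h3 := hφ 0 x.toMul (fun h => hx (toMul_eq_one.1 h))
      have h4 : φ 0 x.toMul = 1 := Nat.eq_one_of_mul_eq_one_right h1
      omega
  set α : G ↪ Additive G := Additive.ofMul.toEmbedding with hα
  have hαv : ∀ g, α g = Additive.ofMul g := fun g => rfl
  have hreg : ∀ i, Pool.Agent.J6H10.PR.Reg (G := Additive G) (fun _ : ℕ => {x : Additive G | x ≠ 0})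
      {S' | ∃ S ∈ 𝓒 i, S' = S.map α} := by
    intro i
    refine ⟨fun S' hS' g _ => ?_, fun n k χ => ?_⟩
    · obtain ⟨S, hS, rfl⟩ := hS'
      obtain ⟨S', hS', h⟩ := htr i S hS g.toMul
      refine ⟨S'.map α, ⟨S', hS', rfl⟩, fun s' => ?_⟩
      rw [Finset.mem_map]
      constructor
      · rintro ⟨a, ha, rfl⟩
        rw [← Finset.mem_coe, h] at ha
        obtain ⟨s, hs, rfl⟩ := ha
        refine ⟨α s, Finset.mem_map_of_mem _ hs, ?_⟩
        rw [hαv, hαv, ofMul_mul, ofMul_toMul]
      · rintro ⟨s, hs, rfl⟩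
        obtain ⟨a, ha, rfl⟩ := Finset.mem_map.1 hs
        refine ⟨g.toMul * a, ?_, ?_⟩
        · rw [← Finset.mem_coe, h]
          exact ⟨a, ha, rfl⟩
        · rw [hαv, hαv, ofMul_mul, ofMul_toMul]
    · obtain ⟨S, hS, h0, h⟩ := hpr i k (fun g => χ (Additive.ofMul g))
      refine ⟨S.map α, ⟨S, hS, rfl⟩, fun s hs => ?_, fun s hs s' hs' => ?_⟩
      · obtain ⟨a, ha, rfl⟩ := Finset.mem_map.1 hs
        intro h1
        rw [hαv, ofMul_eq_zero] at h1
        exact h0 (h1 ▸ ha)
      · obtain ⟨a, ha, rfl⟩ := Finset.mem_map.1 hs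
        obtain ⟨b, hb, rfl⟩ := Finset.mem_map.1 hs'
        exact h a ha b hb
  obtain ⟨S, hS1, hS2, hS3⟩ := Pool.Agent.J6H10.MU.main_PR (G := Additive G) hT
    (fun i => {S' | ∃ S ∈ 𝓒 i, S' = S.map α}) hreg
    (fun j x => φ j x.toMul) (fun j => by simp) (fun j x y => by simp)
    (fun j x hx => hφ j x.toMul (fun h => hx (toMul_eq_one.1 h))) u v q hv hq r hr
    (fun j x => by
      refine Nat.Coprime.mul_right ?_ ?_
      · rw [← Nat.isCoprime_iff_coprime]
        exact (IsCoprime.mul_right_iff.1 (hcop j x.toMul)).2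
      · have h1 := (hφv j x.toMul).gcd_eq
        rw [Nat.coprime_iff_gcd_eq_one, h1, Nat.gcd_one_left])
    (fun j x => (IsCoprime.mul_right_iff.1 (hcop j x.toMul)).1)
  choose S₀ hS₀ hSS₀ using hS1
  refine ⟨S₀, hS₀, fun i h => ?_, fun j k F x hx hF1 hF2 hF3 U hU => ?_⟩
  · refine hS2 i (α 1) ?_ ?_
    · rw [hSS₀]
      exact Finset.mem_map_of_mem _ h
    · rw [hαv, ofMul_one]
  · refine (hS3 j k F (fun i => α (x i)) (fun i => by
      rw [hSS₀]; exact Finset.mem_map_of_mem _ (hx i)) hF1 hF2 hF3 U hU).mono ?_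
    rintro n ⟨hn1, hn2, hn3⟩
    refine ⟨hn1, fun m hm => hn2 m hm, fun g hg hp => ?_⟩
    obtain ⟨m, hm, h⟩ := hn3 g hg hp
    refine ⟨m, hm, fun y => ?_⟩
    rw [h]
    rfl

theorem dil_nat (a n : ℕ) (ha : 1 ≤ a) : dil 1 3 a (n : ℤ) = ((a * n + (a - 1) / 3 : ℕ) : ℤ) := by
  unfold dil
  push_cast [Nat.cast_sub ha]
  ring

/-- Special case: for every sequence `h` there are arithmetic progressions
`b_i, b_i + 3 d_i, …, b_i + 3 d_i h_i` of multipliers `≡ 1 (mod 3)`, greater than `1`, such that for all choices of one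
member `b_i + 3 d_i e_i` of each, with `a_m` the product of the chosen ones over `i ∈ F_0 ∪ ⋯ ∪ F_(m-1)`, and every `R`
there are infinitely many `p` for which the `a ≤ R`, `a ≡ 1 (mod 3)`, with `a p + (a - 1) / 3` prime are exactly
the `a_m ≤ R`, `m ≤ k`. (So `p` is a prime: `a_0 = 1`. The question is about `a = 4`.) -/
theorem progressions (h : ℕ → ℕ) :
    ∃ b d : ℕ → ℕ, (∀ i, b i % 3 = 1 ∧ 1 < b i ∧ 0 < d i) ∧
      ∀ (k : ℕ) (F : ℕ → Finset ℕ) (e : ℕ → ℕ), (∀ i, e i ≤ h i) →
        (∀ l < k, (F l).Nonempty) → (∀ l, l + 1 < k → ∀ i ∈ F l, ∀ i' ∈ F (l + 1), i < i') →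
        ∀ R : ℕ, {p : ℕ | ∀ a ≤ R, a % 3 = 1 → (Nat.Prime (a * p + (a - 1) / 3) ↔
          ∃ m ≤ k, a = ∏ l ∈ Finset.range m, ∏ i ∈ F l, (b i + 3 * d i * e i))}.Infinite := by
  classical
  let G3 : Submonoid ℕ :=
    { carrier := {a | a ≡ 1 [MOD 3]}
      mul_mem' := fun {x y} hx hy => by
        have := Nat.ModEq.mul hx hy
        simpa using this
      one_mem' := Nat.ModEq.refl 1 }
  have hmem : ∀ x : G3, (x : ℕ) % 3 = 1 := fun x => x.2
  let pt : ℕ → ℕ → ℕ → G3 := fun b d e => ⟨1 + 3 * (b + d * e), by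
    show (1 + 3 * (b + d * e)) ≡ 1 [MOD 3]
    unfold Nat.ModEq
    omega⟩
  have hpt : ∀ b d e, ((pt b d e : G3) : ℕ) = 1 + 3 * (b + d * e) := fun _ _ _ => rfl
  obtain ⟨S, hS1, -, hS3⟩ := result G3 (fun _ => G3.subtype) (fun j x hx => by
      have h1 := hmem x
      have h2 : (x : ℕ) ≠ 1 := fun h => hx (Subtype.ext h)
      show 2 ≤ (x : ℕ)
      omega)
    (fun _ => 1) (fun _ => 3) (fun _ => 1) (fun _ => 1) (fun _ => by norm_num) (fun j x => hmem x)
    (fun j x => by simpa using isCoprime_one_right) (fun _ => le_rfl) (fun _ => isCoprime_one_left)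
    (fun i => {S | ∃ b d : ℕ, 0 < b ∧ 0 < d ∧ S = (Finset.range (h i + 1)).image fun e => pt b d e})
    (fun i S hS => by
      obtain ⟨b, d, -, -, rfl⟩ := hS
      exact (Finset.nonempty_range_iff.2 (Nat.succ_ne_zero _)).image _) (fun i S hS g => by
      obtain ⟨b, d, hb, hd, rfl⟩ := hS
      obtain ⟨c, hc⟩ : ∃ c, (g : ℕ) = 1 + 3 * c := ⟨(g : ℕ) / 3, by have := hmem g; omega⟩
      refine ⟨(Finset.range (h i + 1)).image fun e => pt (b + c + 3 * c * b) (d + 3 * c * d) e,
        ⟨b + c + 3 * c * b, d + 3 * c * d, by omega, by omega, rfl⟩, ?_⟩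
      rw [Finset.coe_image, Finset.coe_image, Set.image_image]
      refine Set.image_congr fun e _ => ?_
      apply Subtype.ext
      rw [Submonoid.coe_mul, hpt, hpt, hc]
      ring) (fun i k χ => by
      obtain ⟨d, hd, b, c, hc⟩ := Combinatorics.exists_mono_homothetic_copy (Finset.range (h i + 1))
        (fun n => χ (pt (n + 1) 0 0))
      refine ⟨(Finset.range (h i + 1)).image fun e => pt (b + 1) d e,
        ⟨b + 1, d, by omega, hd, rfl⟩, ?_, ?_⟩
      · intro h0
        obtain ⟨e, -, he⟩ := Finset.mem_image.1 h0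
        have h2 := congrArg (fun x : G3 => (x : ℕ)) he
        simp only [hpt, Submonoid.coe_one] at h2
        omega
      · have h1 : ∀ s ∈ (Finset.range (h i + 1)).image (fun e => pt (b + 1) d e), χ s = c := by
          intro s hs
          obtain ⟨e, he, rfl⟩ := Finset.mem_image.1 hs
          have h2 := hc e he
          rw [← h2]
          congr 1
          apply Subtype.ext
          rw [hpt, hpt, smul_eq_mul]
          ring
        intro s hs s' hs'
        rw [h1 s hs, h1 s' hs'])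
  choose b d hb hd hbd using hS1
  refine ⟨fun i => 1 + 3 * b i, d, fun i => ⟨?_, ?_, hd i⟩, fun k F e he hF1 hF2 R => ?_⟩
  · show (1 + 3 * b i) % 3 = 1
    omega
  · show 1 < 1 + 3 * b i
    have := hb i
    omega
  have h1 := hS3 0 k F (fun i => pt (b i) (d i) (e i)) (fun i => by
    rw [hbd i]
    exact Finset.mem_image_of_mem _ (Finset.mem_range.2 (by have := he i; omega)))
    hF1 (fun _ _ _ _ => Nat.zero_le _) hF2
    (((Finset.range (R + 1)).filter (fun a => a % 3 = 1)).image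
      fun a : ℕ => ((a : ℤ), ((a : ℤ) - 1) / 3 * 1)) (by
      intro g hg
      obtain ⟨a, ha, rfl⟩ := Finset.mem_image.1 hg
      have := (Finset.mem_filter.1 ha).2
      show (1 : ℤ) ≤ a
      omega)
  have hA : ∀ m, ∏ l ∈ Finset.range m, ∏ i ∈ F l, (G3.subtype (pt (b i) (d i) (e i))) =
      ∏ l ∈ Finset.range m, ∏ i ∈ F l, (1 + 3 * b i + 3 * d i * e i) := by
    intro m
    refine Finset.prod_congr rfl fun l _ => Finset.prod_congr rfl fun i _ => ?_
    show ((pt (b i) (d i) (e i) : G3) : ℕ) = _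
    rw [hpt]
    ring
  have hA1 : ∀ m, 1 ≤ ∏ l ∈ Finset.range m, ∏ i ∈ F l, (1 + 3 * b i + 3 * d i * e i) := by
    intro m
    refine Nat.succ_le_of_lt (Finset.prod_pos fun l _ => Finset.prod_pos fun i _ => ?_)
    positivity
  refine h1.mono ?_
  rintro n ⟨-, hn2, hn3⟩ a haR ha3
  constructor
  · intro hp
    obtain ⟨m, hm, h5⟩ := hn3 _ (Finset.mem_image_of_mem _ (Finset.mem_filter.2
      ⟨Finset.mem_range.2 (by omega), ha3⟩)) (by
        have h6 : (a : ℤ) * n + ((a : ℤ) - 1) / 3 * 1 = ((a * n + (a - 1) / 3 : ℕ) : ℤ) :=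
          dil_nat a n (by omega)
        simp only
        rw [h6, Int.toNat_natCast]
        exact hp)
    refine ⟨m, hm, ?_⟩
    rw [hA] at h5
    have h7 := h5 0
    have h8 := h5 1
    unfold dil at h7 h8
    have h9 : (a : ℤ) = ((∏ l ∈ Finset.range m, ∏ i ∈ F l, (1 + 3 * b i + 3 * d i * e i) : ℕ) : ℤ) := by
      linarith
    exact_mod_cast h9
  · rintro ⟨m, hm, rfl⟩
    have h6 := hn2 m hm
    rw [hA, dil_nat _ _ (hA1 m), Int.toNat_natCast] at h6
    exact h6

/-- `x ↦ 4 x + 1` -/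
def S (x : ℕ) : ℕ := 4 * x + 1

theorem iterate_S (t n : ℕ) : ((S^[t] n : ℕ) : ℤ) = dil 1 3 (4 ^ t) n := by
  have hdiv : ∀ t : ℕ, ∃ c : ℤ, (4 : ℤ) ^ t - 1 = 3 * c := by
    intro t
    have : (4 - 1 : ℤ) ∣ 4 ^ t - 1 ^ t := sub_dvd_pow_sub_pow 4 1 t
    rw [one_pow] at this
    obtain ⟨c, hc⟩ := this
    exact ⟨c, by rw [hc]; norm_num⟩
  induction t with
  | zero => simp [dil]
  | succ t ih =>
    rw [Function.iterate_succ_apply']
    show ((4 * S^[t] n + 1 : ℕ) : ℤ) = _
    push_cast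
    rw [ih]
    unfold dil
    push_cast
    obtain ⟨c, hc⟩ := hdiv t
    have h1 : ((4 : ℤ) ^ t - 1) / 3 = c := by rw [hc]; exact Int.mul_ediv_cancel_left _ (by norm_num)
    have h2 : ((4 : ℤ) ^ (t + 1) - 1) / 3 = 4 * c + 1 := by
      have : (4 : ℤ) ^ (t + 1) - 1 = 3 * (4 * c + 1) := by rw [pow_succ]; linarith
      rw [this]
      exact Int.mul_ediv_cancel_left _ (by norm_num)
    rw [h1, h2]
    ring

/-- Special case: for every sequence `h` there are arithmetic progressions `b_i, b_i + d_i, …, b_i + d_i h_i` of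
positive integers such that for all choices of one member of each, with `t_m` the sum of the chosen ones over
`i ∈ F_0 ∪ ⋯ ∪ F_(m-1)`, and every `R` there are infinitely many `p` for which the `t ≤ R` with `S^t(p)` prime,
`S x = 4 x + 1`, are exactly the `t_m ≤ R`, `m ≤ k`. (The question is about `t = 1`.) -/
theorem times (h : ℕ → ℕ) :
    ∃ b d : ℕ → ℕ, (∀ i, 0 < b i ∧ 0 < d i) ∧
      ∀ (k : ℕ) (F : ℕ → Finset ℕ) (e : ℕ → ℕ), (∀ i, e i ≤ h i) →
        (∀ l < k, (F l).Nonempty) → (∀ l, l + 1 < k → ∀ i ∈ F l, ∀ i' ∈ F (l + 1), i < i') →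
        ∀ R : ℕ, {p : ℕ | ∀ t ≤ R, (Nat.Prime (S^[t] p) ↔
          ∃ m ≤ k, t = ∑ l ∈ Finset.range m, ∑ i ∈ F l, (b i + d i * e i))}.Infinite := by
  classical
  obtain ⟨S', hS1, -, hS3⟩ := result (Multiplicative ℕ) (fun _ => powersHom ℕ 4) (fun j x hx => by
      have h1 : x.toAdd ≠ 0 := fun h => hx (toAdd_eq_zero.1 h)
      rw [powersHom_apply]
      calc 2 ≤ 4 ^ 1 := by norm_num
        _ ≤ 4 ^ x.toAdd := Nat.pow_le_pow_right (by norm_num) (Nat.one_le_iff_ne_zero.2 h1))
    (fun _ => 1) (fun _ => 3) (fun _ => 1) (fun _ => 1) (fun _ => by norm_num) (fun j x => by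
      rw [powersHom_apply]
      have : (4 : ℕ) ^ x.toAdd ≡ 1 ^ x.toAdd [MOD 3] := Nat.ModEq.pow _ (by decide)
      simpa using this)
    (fun j x => by simpa using isCoprime_one_right) (fun _ => le_rfl) (fun _ => isCoprime_one_left)
    (fun i => {S | ∃ b d : ℕ, 0 < b ∧ 0 < d ∧
      S = (Finset.range (h i + 1)).image fun e => Multiplicative.ofAdd (b + d * e)})
    (fun i S hS => by
      obtain ⟨b, d, -, -, rfl⟩ := hS
      exact (Finset.nonempty_range_iff.2 (Nat.succ_ne_zero _)).image _) (fun i S hS g => by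
      obtain ⟨b, d, hb, hd, rfl⟩ := hS
      refine ⟨(Finset.range (h i + 1)).image fun e => Multiplicative.ofAdd (g.toAdd + b + d * e),
        ⟨g.toAdd + b, d, by omega, hd, rfl⟩, ?_⟩
      rw [Finset.coe_image, Finset.coe_image, Set.image_image]
      refine Set.image_congr fun e _ => ?_
      rw [add_assoc, ofAdd_add, ofAdd_toAdd]) (fun i k χ => by
      obtain ⟨d, hd, b, c, hc⟩ := Combinatorics.exists_mono_homothetic_copy (Finset.range (h i + 1))
        (fun n => χ (Multiplicative.ofAdd (n + 1)))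
      refine ⟨(Finset.range (h i + 1)).image fun e => Multiplicative.ofAdd (b + 1 + d * e),
        ⟨b + 1, d, by omega, hd, rfl⟩, ?_, ?_⟩
      · intro h0
        obtain ⟨e, -, he⟩ := Finset.mem_image.1 h0
        rw [ofAdd_eq_one] at he
        omega
      · have h1 : ∀ s ∈ (Finset.range (h i + 1)).image (fun e => Multiplicative.ofAdd (b + 1 + d * e)),
            χ s = c := by
          intro s hs
          obtain ⟨e, he, rfl⟩ := Finset.mem_image.1 hs
          have h2 := hc e he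
          rw [← h2, smul_eq_mul]
          congr 2
          ring
        intro s hs s' hs'
        rw [h1 s hs, h1 s' hs'])
  choose b d hb hd hbd using hS1
  refine ⟨b, d, fun i => ⟨hb i, hd i⟩, fun k F e he hF1 hF2 R => ?_⟩
  have h1 := hS3 0 k F (fun i => Multiplicative.ofAdd (b i + d i * e i)) (fun i => by
    rw [hbd i]
    exact Finset.mem_image_of_mem _ (Finset.mem_range.2 (by have := he i; omega)))
    hF1 (fun _ _ _ _ => Nat.zero_le _) hF2
    ((Finset.range (R + 1)).image fun t : ℕ => (((4 ^ t : ℕ) : ℤ), (((4 ^ t : ℕ) : ℤ) - 1) / 3 * 1)) (by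
      intro g hg
      obtain ⟨t, -, rfl⟩ := Finset.mem_image.1 hg
      show (1 : ℤ) ≤ ((4 ^ t : ℕ) : ℤ)
      exact_mod_cast Nat.one_le_pow _ _ (by norm_num))
  have hA : ∀ m, ∏ l ∈ Finset.range m, ∏ i ∈ F l,
      (powersHom ℕ 4 (Multiplicative.ofAdd (b i + d i * e i))) =
      4 ^ (∑ l ∈ Finset.range m, ∑ i ∈ F l, (b i + d i * e i)) := by
    intro m
    rw [← Finset.prod_pow_eq_pow_sum]
    refine Finset.prod_congr rfl fun l _ => ?_
    rw [← Finset.prod_pow_eq_pow_sum]
    refine Finset.prod_congr rfl fun i _ => ?_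
    rw [powersHom_apply, toAdd_ofAdd]
  refine h1.mono ?_
  rintro n ⟨-, hn2, hn3⟩ t htR
  have hdil : dil 1 3 (4 ^ t) (n : ℤ) = ((S^[t] n : ℕ) : ℤ) := (iterate_S t n).symm
  constructor
  · intro hp
    obtain ⟨m, hm, h5⟩ := hn3 _ (Finset.mem_image_of_mem _ (Finset.mem_range.2
      (show t < R + 1 by omega))) (by
        have h6 : (((4 ^ t : ℕ) : ℤ)) * n + (((4 ^ t : ℕ) : ℤ) - 1) / 3 * 1 = ((S^[t] n : ℕ) : ℤ) :=
          hdil
        simp only
        rw [h6, Int.toNat_natCast]
        exact hp)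
    refine ⟨m, hm, ?_⟩
    rw [hA] at h5
    have h7 := h5 0
    have h8 := h5 1
    unfold dil at h7 h8
    have h9 : ((4 ^ t : ℕ) : ℤ) = ((4 ^ (∑ l ∈ Finset.range m, ∑ i ∈ F l, (b i + d i * e i)) : ℕ) : ℤ) := by
      linarith
    have h10 : (4 : ℕ) ^ t = 4 ^ (∑ l ∈ Finset.range m, ∑ i ∈ F l, (b i + d i * e i)) := by
      exact_mod_cast h9
    exact Nat.pow_right_injective (le_refl 2 |>.trans (by norm_num)) h10
  · rintro ⟨m, hm, rfl⟩
    have h6 := hn2 m hm
    rw [hA, ← iterate_S, Int.toNat_natCast] at h6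
    exact h6

end Pool.Agent.Results.MP_3df474_nt.MultiplierSystems
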