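import Pool.Agent.J6H13.OR.Perm

/-!
# Almost all orders of the gaps between the times of primes in orbits of `4 x + 1`

Let `S x = 4 x + 1`. For a prime `p` let `0 = t 0 < t 1 < t 2 < ...` be the times `t` for which `S^t(p)` is prime.
The question is whether `t 1 = 1` for infinitely many primes `p`. For every `k ≥ 1` at least
`k! exp (-150 k √(log k)) = (k!) ^ (1 - o(1))` of the `k!` orders of the gaps `t 1 - t 0, ..., t k - t (k - 1)`
occur for infinitely many primes `p`.

Proof: the Maynard-Tao theorem with a penalty for primes in the same class, for the values at prescribed times (all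
other values being made composite by congruences); the classes of times are placed such that their distances are
ordered like a given permutation of `N` letters. The counting of the permutations is that of
`Pool.Agent.TH779.Ord` (starting files).
-/

set_option autoImplicit false

namespace Pool.Agent.Results.MP_3df474_nt.OrdersOfTimeGaps

/-- `x ↦ 4 x + 1` -/
def S (x : ℕ) : ℕ := 4 * x + 1

/-- `0 = t 0 < t 1 < ... < t k` are the first `k + 1` times `t` for which `S^t(p)` is prime -/
def FirstTimes (k p : ℕ) (t : ℕ → ℕ) : Prop :=
  t 0 = 0 ∧ (∀ i < k, t i < t (i + 1)) ∧ (∀ i ≤ k, (S^[t i] p).Prime) ∧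
    ∀ y ≤ t k, (S^[y] p).Prime → ∃ i ≤ k, y = t i

/-- the orders `π` of the first `k` gaps `t 1 - t 0, ..., t k - t (k - 1)` (these are different and ordered like
`π 0, ..., π (k - 1)`) which occur for infinitely many primes `p` -/
def Orders (k : ℕ) : Set (Equiv.Perm (Fin k)) :=
  {π | {p : ℕ | p.Prime ∧ ∃ t : ℕ → ℕ, FirstTimes k p t ∧
    ∀ i j : Fin k, π i < π j ↔ t (i + 1) - t i < t (j + 1) - t j}.Infinite}

/-- Almost all orders occur. -/
theorem result (k : ℕ) (hk : 1 ≤ k) :
    (k.factorial : ℝ) * Real.exp (-(150 * k * Real.sqrt (Real.log k))) ≤ (Orders k).ncard :=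
  Pool.Agent.J6H13.OR.explicit hk

end Pool.Agent.Results.MP_3df474_nt.OrdersOfTimeGaps
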