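import Pool.Agent.J6H13.OR.Fin

/-!
# An explicit proportion of all sets of times are the times of consecutive primes in orbits of `4 x + 1`

Let `S x = 4 x + 1`. The question is whether there are infinitely many primes `p` for which `S p` is prime, i.e.
whether the set `{0, 1}` of times belongs to infinitely many orbits. There is an absolute constant `c > 0` such that
for all `r < k` the following holds for EVERY sufficiently large finite set `V` of natural numbers: at least the
proportion `(c (r + 1) / k) ^ k` of the `k`-element subsets `E` of `V` are such that for infinitely many `n` all the
values `S^t(n)`, `t ∈ E`, are primes, and at most `r` other values `S^y(n)` with `y` between two elements of `E` are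
primes. For `r = 0` the values are consecutive primes of the orbit, the proportion is `(c / k) ^ k`. For `r` of the
order of `k` the proportion is `c' ^ k`, which cannot be improved, up to the value of `c'`, for an interval `V`: the
elements of `E` have to miss a residue class modulo `3`.

Proof. (1) The Maynard-Tao theorem with a penalty for primes in the same class, for the values at prescribed times,
all other values being made composite by congruences. (2) Erdős' box lemma: if fewer sets `E` had the property, there
would be `T ≤ 120 k ^ 2 / (r + 1)` large classes of elements of `V` without such a set `E` with elements in different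
classes.
-/

set_option autoImplicit false

open Finset

namespace Pool.Agent.Results.MP_3df474_nt.ProportionOfTimes

/-- `x ↦ 4 x + 1` -/
def S (x : ℕ) : ℕ := 4 * x + 1

/-- for infinitely many `n` the values of the orbit of `n` at the times `t ∈ E` are prime, and at most `r` values at
other times between two elements of `E` are prime -/
def Occurs (r : ℕ) (E : Finset ℕ) : Prop :=
  {n : ℕ | (∀ t ∈ E, (S^[t] n).Prime) ∧
    {y : ℕ | y ∉ E ∧ (∃ s ∈ E, s < y) ∧ (∃ t ∈ E, y < t) ∧ (S^[y] n).Prime}.ncard ≤ r}.Infinite

open Classical in
/-- There is `c > 0` such that for all `r < k` and every large finite set `V` of natural numbers at least the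
proportion `(c (r + 1) / k) ^ k` of the `k`-element subsets of `V` have this property. -/
theorem result : ∃ c : ℝ, 0 < c ∧ ∀ k r : ℕ, r < k → ∃ N : ℕ, ∀ V : Finset ℕ, N ≤ V.card →
    (c * (((r : ℝ) + 1) / k)) ^ k * ((V.card).choose k : ℝ) ≤
      (((V.powersetCard k).filter (fun E => Occurs r E)).card : ℝ) :=
  Pool.Agent.J6H13.OR.main

end Pool.Agent.Results.MP_3df474_nt.ProportionOfTimes
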