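import Mathlib
import Pool.Agent.J6H58.D3.Fin
import Pool.Agent.J6H58.D4.Win
import Pool.Agent.J6H58.Orb.Main

/-!
# Three primes at any 4335 times, four primes at any 294913 times in the orbits of `x ↦ 4 x + 1`

`S x = 4 x + 1`. Every set `T` of at least `4335` times contains a set `P` of at least three times such that for
every `R` and arbitrarily large `x`, for at least `x / (log x) ^ B` of the `n ≤ x`, the primes among the numbers
`S^t(n)`, `t ≤ R` or `t ∈ T`, are exactly those with `t ∈ P`. So for `t₁ < t₂ < t₃ < …` the elements of `P`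
the prime `p = S^t₁(n)` and the primes `S^(t₂ - t₁)(p)`, `S^(t₃ - t₁)(p)` are the first three primes of the orbit of `p`
(the question asks for the orbits in which the second one is `S(p)`). If `T` has at least `2890` elements in two
residue classes modulo `3`, the same holds; with `294913` and `196609` instead of `4335` and `2890` there are at
least four times in `P`.

Proof. The forms `4^t n + (4^t - 1) / 3` are locally admissible at all primes other than `3`, and at `3` if a residue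
class of times is missed. Three of any 2890, and four of any 196609, admissible linear forms are simultaneously
prime: sieve weights supported on tuples with many small coordinates, primes beyond the level `1/2`, certificates
which the kernel checks (`Pool/Agent/J6H58/D3`, `Pool/Agent/J6H58/D4`).
-/

set_option autoImplicit false

open Filter

namespace Pool.Agent.Results.MP_3df474_nt.ThreeAndFourOfIterates

/-- There is an absolute constant `B` such that for `(k, K, K') = (3, 2890, 4335)` and for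
`(k, K, K') = (4, 196609, 294913)` the following holds for every finite set `T` of natural numbers which has at least
`K'` elements, or at least `K` elements in two of the residue classes modulo `3`. Write `S x = 4 x + 1`.

(1) For all `R` and all large `x`, for at least `x / (log x) ^ B` of the natural numbers `n ≤ x` there is a `P ⊆ T`
with at least `k` elements such that for all `t` with `t ≤ R` or `t ∈ T` the number `S^t(n)` is prime if and only if
`t ∈ P`.

(2) There is one `P ⊆ T` with at least `k` elements such that for all `R` and arbitrarily large `x`, at least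
`x / (log x) ^ B` of the natural numbers `n ≤ x` have the property: for all `t` with `t ≤ R` or `t ∈ T` the number
`S^t(n)` is prime if and only if `t ∈ P`. -/
theorem result : ∃ B : ℕ, ∀ k K K' : ℕ,
    (k = 3 ∧ K = 2890 ∧ K' = 4335) ∨ (k = 4 ∧ K = 196609 ∧ K' = 294913) → ∀ T : Finset ℕ,
    (K' ≤ T.card ∨ ∃ r : ℕ, K ≤ (T.filter fun t => ¬ 3 ∣ r + t).card) →
    (∀ R : ℕ, ∀ᶠ x : ℝ in atTop, x / Real.log x ^ B ≤
      (Set.ncard {n : ℕ | (n : ℝ) ≤ x ∧ ∃ P : Finset ℕ, P ⊆ T ∧ k ≤ P.card ∧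
        ∀ t : ℕ, t ≤ R ∨ t ∈ T → (((fun y : ℕ => 4 * y + 1)^[t] n).Prime ↔ t ∈ P)} : ℝ)) ∧
    ∃ P : Finset ℕ, P ⊆ T ∧ k ≤ P.card ∧ ∀ R : ℕ, ∃ᶠ x : ℝ in atTop,
      x / Real.log x ^ B ≤ (Set.ncard {n : ℕ | (n : ℝ) ≤ x ∧
        ∀ t : ℕ, t ≤ R ∨ t ∈ T → (((fun y : ℕ => 4 * y + 1)^[t] n).Prime ↔ t ∈ P)} : ℝ) := by
  obtain ⟨B, hB⟩ : ∃ B : ℕ, B = max (Pool.Agent.J6H58.D3.CC 2890 + 3) (Pool.Agent.J6H58.D3.CC 196609 + 3) :=
    ⟨_, rfl⟩
  have key : ∀ (m K C : ℕ), Pool.Agent.Y876.FF.LH m K C → C + 3 ≤ B → ∀ (T : Finset ℕ) (r : ℕ),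
      K ≤ (T.filter fun t => ¬ 3 ∣ r + t).card →
      (∀ R : ℕ, ∀ᶠ x : ℝ in atTop, x / Real.log x ^ B ≤
        (Set.ncard {n : ℕ | (n : ℝ) ≤ x ∧ ∃ P : Finset ℕ, P ⊆ T ∧ m + 1 ≤ P.card ∧
          ∀ t : ℕ, t ≤ R ∨ t ∈ T → (((fun y : ℕ => 4 * y + 1)^[t] n).Prime ↔ t ∈ P)} : ℝ)) ∧
      ∃ P : Finset ℕ, P ⊆ T ∧ m + 1 ≤ P.card ∧ ∀ R : ℕ, ∃ᶠ x : ℝ in atTop,
        x / Real.log x ^ B ≤ (Set.ncard {n : ℕ | (n : ℝ) ≤ x ∧
          ∀ t : ℕ, t ≤ R ∨ t ∈ T → (((fun y : ℕ => 4 * y + 1)^[t] n).Prime ↔ t ∈ P)} : ℝ) := by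
    intro m K C hyp hC T r hT
    have hlog : ∀ᶠ x : ℝ in atTop, x / Real.log x ^ B ≤ x / Real.log x ^ (C + 3) := by
      filter_upwards [Real.tendsto_log_atTop.eventually_ge_atTop 1, eventually_ge_atTop (0 : ℝ)] with x hx hx0
      exact div_le_div_of_nonneg_left hx0 (by positivity) (pow_le_pow_right₀ hx hC)
    obtain ⟨h1, P, hP1, hP2, h2⟩ := Pool.Agent.J6H58.Orb.orbits hyp T r hT
    refine ⟨fun R => ?_, P, hP1, hP2, fun R => ?_⟩
    · filter_upwards [h1 R, hlog] with x hx1 hx2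
      exact hx2.trans hx1
    · exact ((h2 R).and_eventually hlog).mono fun x hx => hx.2.trans hx.1
  refine ⟨B, fun k K K' hk T hT => ?_⟩
  have hr : ∀ K0 K1 : ℕ, (∀ n : ℕ, K1 ≤ n → K0 ≤ n - n / 3) →
      (K1 ≤ T.card ∨ ∃ r : ℕ, K0 ≤ (T.filter fun t => ¬ 3 ∣ r + t).card) →
      ∃ r : ℕ, K0 ≤ (T.filter fun t => ¬ 3 ∣ r + t).card := by
    intro K0 K1 h h'
    rcases h' with h' | h'
    · obtain ⟨r, hr⟩ := Pool.Agent.J6H58.Orb.two_thirds T
      exact ⟨r, (h _ h').trans hr⟩
    · exact h'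
  rcases hk with ⟨rfl, rfl, rfl⟩ | ⟨rfl, rfl, rfl⟩
  · obtain ⟨r, hr⟩ := hr 2890 4335 (fun n hn => by omega) hT
    exact key 2 2890 _ Pool.Agent.J6H58.D3.lh2890 (by rw [hB]; exact le_max_left _ _) T r hr
  · obtain ⟨r, hr⟩ := hr 196609 294913 (fun n hn => by omega) hT
    exact key 3 196609 _ Pool.Agent.J6H58.D4.lh196609 (by rw [hB]; exact le_max_right _ _) T r hr

end Pool.Agent.Results.MP_3df474_nt.ThreeAndFourOfIterates
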